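import Mathlib
import Pool.Agent.Helper77.TC.RigS

/-!
# A vector which is not orthogonal to the points of the curve
-/

set_option autoImplicit false

namespace Pool.Agent.Helper77.UN

open Pool.Agent.Helper91.TC (pts)

theorem exists_vec {p d : ℕ} [Fact p.Prime] (hp2 : p ≠ 2) (hd : 2 ≤ d) (hdp : 2 * d - 2 ≤ p) :
    ∃ C : Fin d → ZMod p, (∀ a, C a ≠ 0) ∧ ∀ t ∈ pts p d, ∑ a, C a * t ^ (a : ℕ) ≠ 0 := by
  classical
  have hp : p.Prime := Fact.out
  obtain ⟨m, rfl⟩ : ∃ m, d = m + 1 := ⟨d - 1, by omega⟩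
  have hlt : 2 * (m + 1) - 2 < p := by
    rcases Nat.lt_or_eq_of_le hdp with h | h
    · exact h
    · exfalso
      have h1 : 2 ∣ p := by
        rw [← h]
        exact ⟨m, by omega⟩
      exact hp2 ((Nat.prime_dvd_prime_iff_eq Nat.prime_two hp).1 h1).symm
  let B : Finset (ZMod p) := insert 0 ((pts p (m + 1)).image fun t => - ∑ a : Fin m, t ^ ((a : ℕ) + 1))
  have hB : B.card < p := by
    have h1 : (pts p (m + 1)).card ≤ 2 * (m + 1) - 3 := by
      rw [pts]
      exact Finset.card_image_le.trans (Finset.card_range _).le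
    have h2 : B.card ≤ ((pts p (m + 1)).image fun t => - ∑ a : Fin m, t ^ ((a : ℕ) + 1)).card + 1 :=
      Finset.card_insert_le _ _
    have h3 := Finset.card_image_le (s := pts p (m + 1))
      (f := fun t => - ∑ a : Fin m, t ^ ((a : ℕ) + 1))
    omega
  obtain ⟨c, hc⟩ : ∃ c : ZMod p, c ∉ B := by
    by_contra hcon
    push Not at hcon
    have h1 : B = Finset.univ := Finset.eq_univ_iff_forall.2 hcon
    rw [h1, Finset.card_univ, ZMod.card] at hB
    exact lt_irrefl _ hB
  refine ⟨Fin.cons c fun _ => 1, fun a => ?_, fun t ht h => ?_⟩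
  · refine Fin.cases ?_ (fun i => ?_) a
    · rw [Fin.cons_zero]
      rintro rfl
      exact hc (Finset.mem_insert_self _ _)
    · rw [Fin.cons_succ]
      exact one_ne_zero
  · apply hc
    refine Finset.mem_insert_of_mem (Finset.mem_image.2 ⟨t, ht, ?_⟩)
    rw [Fin.sum_univ_succ, Fin.cons_zero, Fin.val_zero, pow_zero, mul_one] at h
    simp only [Fin.cons_succ, one_mul, Fin.val_succ] at h
    exact (eq_neg_of_add_eq_zero_left h).symm

end Pool.Agent.Helper77.UN
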